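import Pool.Agent.LCL89.Main.Defs

set_option autoImplicit false

/-!
# The LCL
-/

namespace Pool.Agent.LCL89

/-- labels -/
structure Lab where
  /-- the input symbol: `0`, `1` = bits, `2` = end mark -/
  ι : ZMod 3
  U : Bool
  N : Bool
  /-- `none`, or a value proving the non-commutation of `r` and `v_σ` -/
  lam : Option (ZMod 4)
  R : Bool
  p : Bool
deriving DecidableEq

/-- the designated elements -/
structure Elts (Γ : Type) where
  a : Γ
  x : Γ
  c : Γ
  t : Γ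
  r : Γ
  v : Γ
  s : Bool → Γ

variable {Γ : Type} [Group Γ]

/-- the elements whose neighbours must carry the same block -/
def Elts.S1 (e : Elts Γ) : List Γ :=
  [e.c, e.c⁻¹, e.r, e.v, e.s false, (e.s false)⁻¹, e.s true, (e.s true)⁻¹]

/-- the bit `b` as an input symbol -/
def bitSym (b : Bool) : ZMod 3 := if b then 1 else 0

/-- local error at the origin of the pattern `F` -/
def Err (e : Elts Γ) (F : Γ → Lab) : Prop :=
  (∃ h ∈ e.S1, (F h).ι ≠ (F 1).ι ∨ (F (e.x * h)).ι ≠ (F e.x).ι) ∨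
    (F e.t⁻¹).ι ≠ (F 1).ι ∨ ((F e.x).ι = 2 ∧ (F (e.x * e.t⁻¹)).ι = 2)

/-- the label says that the block is error free -/
def Lab.ok (l : Lab) : Prop := l.U = false ∧ l.N = false

/-- the label of a live base point -/
def Lab.live (l : Lab) : Prop := l.ι = 2 ∧ l.ok ∧ l.lam = none

/-- rule (L1) -/
def L1 (e : Elts Γ) (F : Γ → Lab) : Prop := (F e.a).ι = (F 1).ι + 1

/-- rule (L2) -/
def L2 (e : Elts Γ) (F : Γ → Lab) : Prop :=
  (F 1).U = true ↔ (Err e F ∨ ((F e.x).ι ≠ 2 ∧ (F e.x).U = true))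

/-- rule (L3) -/
def L3 (e : Elts Γ) (F : Γ → Lab) : Prop :=
  (F 1).N = true ↔ (Err e F ∨ ((F 1).ι ≠ 2 ∧ (F e.x⁻¹).N = true))

/-- rule (L4): chain rule -/
def L4 (e : Elts Γ) (F : Γ → Lab) : Prop :=
  ∀ b : Bool, (F 1).ok → (F e.x).ι = bitSym b → (F (e.x * (e.s b)⁻¹)).ok →
    (F (e.x * (e.s b)⁻¹)).lam = (F 1).lam

/-- rule (L5): at the base -/
def L5 (e : Elts Γ) (F : Γ → Lab) : Prop :=
  (F 1).ι = 2 → (F 1).ok → (F e.r).ok → (F e.r).lam = (F 1).lam.map (fun i => 1 - i)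

/-- rule (L6): at the top -/
def L6 (e : Elts Γ) (F : Γ → Lab) : Prop :=
  (F 1).ok → (F e.x).ι = 2 → (F e.v).ok → (F e.v).lam = (F 1).lam.map (fun i => -i)

/-- rule (L7) -/
def L7 (_e : Elts Γ) (F : Γ → Lab) : Prop := ¬ (F 1).live → (F 1).R = true

/-- rule (L8) -/
def L8 (e : Elts Γ) (F : Γ → Lab) : Prop :=
  (F 1).live → (F 1).R = true → (F e.t⁻¹).R = false

/-- rule (L9) -/
def L9 (e : Elts Γ) (F : Γ → Lab) : Prop :=
  (F 1).live → (F e.c).live → (F 1).R = (F e.c).R ∧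
    ((F 1).R = false → (F e.t⁻¹).R = false → (F (e.t⁻¹ * e.c)).R = false → (F 1).p ≠ (F e.c).p)

/-- the rules (L2)-(L9), which only mention `G` -/
structure RulesG (e : Elts Γ) (F : Γ → Lab) : Prop where
  l2 : L2 e F
  l3 : L3 e F
  l4 : L4 e F
  l5 : L5 e F
  l6 : L6 e F
  l7 : L7 e F
  l8 : L8 e F
  l9 : L9 e F

/-- all rules -/
def Rules (e : Elts Γ) (F : Γ → Lab) : Prop := L1 e F ∧ RulesG e F

open Classical in
/-- the window -/
noncomputable def window (e : Elts Γ) : Finset Γ :=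
  ([1, e.a, e.x, e.x⁻¹, e.t⁻¹, e.x * e.t⁻¹, e.t⁻¹ * e.c, e.x * (e.s false)⁻¹, e.x * (e.s true)⁻¹] ++
    e.S1 ++ e.S1.map (fun h => e.x * h)).toFinset

open Classical in
/-- extension of a pattern on a finite window to the whole group -/
noncomputable def extend (W : Finset Γ) (pat : W → Lab) (γ : Γ) : Lab :=
  if h : γ ∈ W then pat ⟨γ, h⟩ else ⟨0, false, false, none, false, false⟩

/-- label sets are finite -/
def labEquiv : Lab ≃ ZMod 3 × Bool × Bool × Option (ZMod 4) × Bool × Bool where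
  toFun l := (l.ι, l.U, l.N, l.lam, l.R, l.p)
  invFun q := ⟨q.1, q.2.1, q.2.2.1, q.2.2.2.1, q.2.2.2.2.1, q.2.2.2.2.2⟩
  left_inv _ := rfl
  right_inv _ := rfl

/-- the LCL -/
noncomputable def theLCL (e : Elts Γ) : LCL Γ where
  Λ := Lab
  finite_Λ := by
    haveI : Finite (ZMod 3) := inferInstanceAs (Finite (Fin 3))
    haveI : Finite (ZMod 4) := inferInstanceAs (Finite (Fin 4))
    exact Finite.of_equiv _ labEquiv.symm
  S := window e
  A := {pat | Rules e (extend (window e) pat)}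

/-- the product `s_{σ_1} ... s_{σ_n}` -/
def wrd (s : Bool → Γ) (σ : List Bool) : Γ := (σ.map s).prod

/-- `v_σ = w_σ v w_σ⁻¹` -/
def vconj (e : Elts Γ) (σ : List Bool) : Γ := wrd e.s σ * e.v * (wrd e.s σ)⁻¹

/-- the properties of the designated elements used for the existence of Borel solutions -/
structure Good (e : Elts Γ) (Val : Set (List Bool)) : Prop where
  a_ne : e.a ≠ 1
  a_pow : e.a ^ 3 = 1
  xc : Commute e.x e.c
  xt : Commute e.x e.t
  xr : Commute e.x e.r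
  xv : Commute e.x e.v
  xs : ∀ b, Commute e.x (e.s b)
  /-- for invalid codes `r`, `v_σ` generate a finite group acting on `ZMod 4` as required -/
  bad : ∀ σ, σ ∉ Val → ∃ (Q : Type) (_ : Group Q) (_ : Finite Q) (j : Q →* Γ)
    (ρ : Q →* Equiv.Perm (ZMod 4)) (r' v' : Q), Function.Injective j ∧ j r' = e.r ∧
      j v' = vconj e σ ∧ (∀ i, ρ r' i = 1 - i) ∧ (∀ i, ρ v' i = -i)
  /-- no infinite chains of proper extensions of valid codes -/
  wf : ∀ f : ℕ → List Bool, (∀ n, f n ∈ Val) → ¬ ∀ n, f n <+: f (n + 1) ∧ f n ≠ f (n + 1)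

/-- the pattern seen from the point `z` -/
def pat {X L : Type} [MulAction Γ X] (f : X → L) (z : X) : Γ → L := fun γ => f (γ • z)

/-- WD: `IsLabeling` in terms of the rules -/
def StmtWindow : Prop :=
  ∀ {Γ : Type} [Group Γ] (e : Elts Γ) {X : Type} [MulAction Γ X] (f : X → Lab),
    IsLabeling (theLCL e) (X := X) f ↔ ∀ z : X, Rules e (pat f z)

/-- FG: Borel equivariant maps for finite groups -/
def StmtFinGroup : Prop :=
  ∀ {X : Type} [MeasurableSpace X] [StandardBorelSpace X] (Q : Type) [Group Q] [Finite Q]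
    [MulAction Q X] (_ : ∀ q : Q, Measurable fun x : X => q • x)
    (_ : ∀ (q : Q) (x : X), q • x = x → q = 1) {L : Type} [Finite L] (ρ : Q →* Equiv.Perm L)
    (_ : Nonempty L),
    ∃ θ : X → L, (∀ l, MeasurableSet (θ ⁻¹' {l})) ∧ ∀ (q : Q) (x : X), θ (q • x) = ρ q (θ x)

/-- BS: the LCL has Borel solutions on all free Borel actions -/
def StmtBorelSolution : Prop :=
  ∀ {Γ : Type} [Group Γ] [Countable Γ] (e : Elts Γ) (Val : Set (List Bool)), Good e Val →
    theLCL e ∈ BOREL Γ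

end Pool.Agent.LCL89
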