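import Pool.Agent.LCL89.Lcl.Defs

set_option autoImplicit false

namespace Pool.Agent.LCL89

theorem finGroup : StmtFinGroup := by
  intro X _ _ Q _ _ _ hq hfree L _ ρ hL
  obtain ⟨l0⟩ := hL
  obtain ⟨e, he⟩ := MeasureTheory.exists_measurableEmbedding_real X
  haveI : Fintype Q := Fintype.ofFinite Q
  classical
  -- the minimiser
  have hex : ∀ x : X, ∃ q : Q, ∀ q' : Q, e (q • x) ≤ e (q' • x) := by
    intro x
    obtain ⟨q, -, h⟩ := Finset.exists_min_image Finset.univ (fun q : Q => e (q • x)) ⟨1, Finset.mem_univ _⟩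
    exact ⟨q, fun q' => h q' (Finset.mem_univ _)⟩
  choose d hd using hex
  have huniq : ∀ (x : X) (q : Q), (∀ q' : Q, e (q • x) ≤ e (q' • x)) → q = d x := by
    intro x q h
    have h1 : e (q • x) = e (d x • x) := le_antisymm (h _) (hd x q)
    have h2 : q • x = d x • x := he.injective h1
    have h3 : ((d x)⁻¹ * q) • x = x := by rw [mul_smul, h2, inv_smul_smul]
    have h4 := hfree _ _ h3
    rw [inv_mul_eq_one] at h4
    exact h4.symm
  have hdq : ∀ (q : Q) (x : X), d (q • x) = d x * q⁻¹ := by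
    intro q x
    symm
    apply huniq
    intro q'
    rw [smul_smul, smul_smul, inv_mul_cancel_right]
    exact hd x (q' * q)
  refine ⟨fun x => ρ (d x)⁻¹ l0, ?_, ?_⟩
  · intro l
    have hset : (fun x => ρ (d x)⁻¹ l0) ⁻¹' {l} =
        ⋃ q ∈ {q : Q | ρ q⁻¹ l0 = l}, {x | ∀ q' : Q, e (q • x) ≤ e (q' • x)} := by
      ext x
      simp only [Set.mem_preimage, Set.mem_singleton_iff, Set.mem_setOf_eq, Set.mem_iUnion,
        exists_prop]
      constructor
      · intro h
        exact ⟨d x, h, hd x⟩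
      · rintro ⟨q, h1, h2⟩
        rw [← huniq x q h2]
        exact h1
    rw [hset]
    refine MeasurableSet.biUnion (Set.to_countable _) fun q _ => ?_
    rw [show {x : X | ∀ q' : Q, e (q • x) ≤ e (q' • x)} = ⋂ q' : Q, {x : X | e (q • x) ≤ e (q' • x)}
      by ext; simp]
    exact MeasurableSet.iInter fun q' =>
      measurableSet_le (he.measurable.comp (hq q)) (he.measurable.comp (hq q'))
  · intro q x
    simp only [hdq, mul_inv_rev, inv_inv, map_mul, Equiv.Perm.mul_apply]

end Pool.Agent.LCL89
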