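import Pool.Agent.LCL89.Lcl.Stmt

set_option autoImplicit false

/-!
# The label `lam`
-/

namespace Pool.Agent.LCL89

section

variable {Γ : Type} [Group Γ]

/-- the group element which brings height `i` of a block of code `σ` to the base point -/
def lamElt (e : Elts Γ) (i : ℕ) (σ : List Bool) : Γ := wrd e.s (σ.take i) * (e.x ^ i)⁻¹

lemma wrd_take_succ (s : Bool → Γ) (σ : List Bool) (i : ℕ) (h : i < σ.length) :
    wrd s (σ.take (i + 1)) = wrd s (σ.take i) * s σ[i] := by
  rw [wrd, wrd, List.take_succ_eq_append_getElem h, List.map_append, List.prod_append,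
    List.map_singleton, List.prod_singleton]

/-- equivariant maps for the dihedral groups of the invalid codes -/
lemma exists_theta (hFG : StmtFinGroup) {e : Elts Γ} {Val : Set (List Bool)} (hG : Good e Val)
    {X : Type} [MeasurableSpace X] [StandardBorelSpace X] [MulAction Γ X]
    (hm : ∀ γ : Γ, Measurable fun x : X => γ • x) (hfree : FreeAct Γ X) (σ : List Bool)
    (hσ : σ ∉ Val) :
    ∃ θ : X → ZMod 4, (∀ l, MeasurableSet (θ ⁻¹' {l})) ∧ (∀ x, θ (e.r • x) = 1 - θ x) ∧
      ∀ x, θ (vconj e σ • x) = - θ x := by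
  obtain ⟨Q, gQ, fQ, j, ρ, r', v', hj, hr, hv, hρr, hρv⟩ := hG.bad σ hσ
  let act : MulAction Q X := MulAction.compHom X j
  have hact : ∀ (q : Q) (x : X), q • x = j q • x := fun q x => rfl
  have hfin : Finite (ZMod 4) := inferInstanceAs (Finite (Fin 4))
  obtain ⟨θ, h1, h2⟩ := hFG (X := X) Q (fun q => hm (j q)) (by
    intro q x hq
    rw [hact] at hq
    have := hfree (j q) x hq
    exact hj (by rw [this, map_one])) (L := ZMod 4) ρ ⟨0⟩
  refine ⟨θ, h1, fun x => ?_, fun x => ?_⟩
  · rw [← hr, ← hact, h2, hρr]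
  · rw [← hv, ← hact, h2, hρv]

/-- LA -/
theorem lamStmt (hFG : StmtFinGroup) : StmtLam := by
  intro Γ _ _ e Val hG X _ _ _ hm hfree ι U N Cd hCdm hCd
  classical
  have hθ : ∀ σ : List Bool, ∃ θ : X → ZMod 4, (∀ l, MeasurableSet (θ ⁻¹' {l})) ∧
      (σ ∉ Val → (∀ x, θ (e.r • x) = 1 - θ x) ∧ ∀ x, θ (vconj e σ • x) = - θ x) := by
    intro σ
    by_cases hσ : σ ∈ Val
    · refine ⟨fun _ => 0, fun l => ?_, fun h => absurd hσ h⟩
      exact measurable_const (MeasurableSpace.measurableSet_top (s := {l}))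
    · obtain ⟨θ, h1, h2, h3⟩ := exists_theta hFG hG hm hfree σ hσ
      exact ⟨θ, h1, fun _ => ⟨h2, h3⟩⟩
  choose θ hθm hθe using hθ
  let lam : X → Option (ZMod 4) := fun z =>
    if h : ∃ p : ℕ × List Bool, z ∈ Cd p.1 p.2 ∧ p.2 ∉ Val then
      some (θ h.choose.2 (lamElt e h.choose.1 h.choose.2 • z)) else none
  have hlam_some : ∀ z i σ, z ∈ Cd i σ → σ ∉ Val → lam z = some (θ σ (lamElt e i σ • z)) := by
    intro z i σ hz hσ
    have h : ∃ p : ℕ × List Bool, z ∈ Cd p.1 p.2 ∧ p.2 ∉ Val := ⟨(i, σ), hz, hσ⟩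
    obtain ⟨h1, h2⟩ := hCd.uniq z _ _ _ _ h.choose_spec.1 hz
    simp only [lam, dif_pos h]
    rw [h1, h2]
  have hlam_none : ∀ z i σ, z ∈ Cd i σ → σ ∈ Val → lam z = none := by
    intro z i σ hz hσ
    have h : ¬ ∃ p : ℕ × List Bool, z ∈ Cd p.1 p.2 ∧ p.2 ∉ Val := by
      rintro ⟨⟨j, τ⟩, h1, h2⟩
      obtain ⟨-, h3⟩ := hCd.uniq z _ _ _ _ h1 hz
      exact h2 (h3 ▸ hσ)
    simp only [lam, dif_neg h]
  have hmsome : ∀ l, MeasurableSet (lam ⁻¹' {some l}) := by
    intro l
    have : lam ⁻¹' {some l} = ⋃ (p : ℕ × List Bool) (_ : p.2 ∉ Val),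
        (Cd p.1 p.2 ∩ (fun z => lamElt e p.1 p.2 • z) ⁻¹' (θ p.2 ⁻¹' {l})) := by
      ext z
      simp only [Set.mem_preimage, Set.mem_singleton_iff, Set.mem_iUnion, Set.mem_inter_iff,
        exists_prop]
      constructor
      · intro hz
        by_cases h : ∃ p : ℕ × List Bool, z ∈ Cd p.1 p.2 ∧ p.2 ∉ Val
        · obtain ⟨p, h1, h2⟩ := h
          refine ⟨p, h2, h1, ?_⟩
          rw [hlam_some z _ _ h1 h2] at hz
          exact Option.some.inj hz
        · simp only [lam, dif_neg h] at hz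
          exact absurd hz (by simp)
      · rintro ⟨p, h1, h2, h3⟩
        rw [hlam_some z _ _ h2 h1, h3]
    rw [this]
    refine MeasurableSet.iUnion fun p => MeasurableSet.iUnion fun _ => ?_
    exact (hCdm _ _).inter (hm _ (hθm _ _))
  refine ⟨lam, ?_, ?_, ?_⟩
  · intro l
    cases l with
    | some l => exact hmsome l
    | none =>
      have : lam ⁻¹' {none} = (⋃ l : ZMod 4, lam ⁻¹' {some l})ᶜ := by
        ext z
        simp only [Set.mem_preimage, Set.mem_singleton_iff, Set.mem_compl_iff, Set.mem_iUnion]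
        cases lam z <;> simp
      rw [this]
      have : Countable (ZMod 4) := inferInstanceAs (Countable (Fin 4))
      exact (MeasurableSet.iUnion fun l => hmsome l).compl
  · intro z i σ hz
    constructor
    · intro h
      by_contra hσ
      rw [hlam_some z i σ hz hσ] at h
      exact absurd h (by simp)
    · intro hσ
      exact hlam_none z i σ hz hσ
  · intro f hfι hfU hfN hfl z
    have hok : ∀ y, (f y).ok ↔ (U y = false ∧ N y = false) := by
      intro y
      rw [Lab.ok, hfU, hfN]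
    refine ⟨?_, ?_, ?_⟩
    · intro b h1 h2 h3
      simp only [pat, one_smul] at h1 h2 h3 ⊢
      rw [hok] at h1 h3
      rw [hfι] at h2
      rw [hfl, hfl]
      obtain ⟨i, σ, hz⟩ := (hCd.ex z).1 h1
      have hi : i < σ.length := by
        refine lt_of_le_of_ne (hCd.le z i σ hz) ?_
        intro h
        have := (hCd.top z i σ hz).2 h
        rw [h2] at this
        cases b <;> simp only [bitSym] at this <;> revert this <;> decide
      have hb : σ[i] = b := by
        have := hCd.bit z i σ hz hi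
        rw [h2] at this
        revert this
        cases b <;> cases σ[i] <;> simp only [bitSym] <;> decide
      subst hb
      have hz' := hCd.chain z i σ hz hi h3
      by_cases hσ : σ ∈ Val
      · rw [hlam_none _ _ _ hz hσ, hlam_none _ _ _ hz' hσ]
      · rw [hlam_some _ _ _ hz hσ, hlam_some _ _ _ hz' hσ]
        congr 2
        rw [← mul_smul]
        congr 1
        rw [lamElt, lamElt, wrd_take_succ _ _ _ hi]
        have hc : Commute e.x (e.s σ[i]) := hG.xs _
        have hc2 : Commute (e.s σ[i]) ((e.x ^ (i + 1))⁻¹ * e.x) := by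
          apply Commute.mul_right
          · exact ((hc.pow_left (i + 1)).symm).inv_right
          · exact hc.symm
        calc wrd e.s (σ.take i) * e.s σ[i] * (e.x ^ (i + 1))⁻¹ * (e.x * (e.s σ[i])⁻¹)
            = wrd e.s (σ.take i) * (e.s σ[i] * ((e.x ^ (i + 1))⁻¹ * e.x)) * (e.s σ[i])⁻¹ := by
              simp only [mul_assoc]
          _ = wrd e.s (σ.take i) * (((e.x ^ (i + 1))⁻¹ * e.x) * e.s σ[i]) * (e.s σ[i])⁻¹ := by
              rw [hc2.eq]
          _ = wrd e.s (σ.take i) * (e.x ^ i)⁻¹ := by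
              rw [pow_succ']
              simp [mul_assoc]
    · intro h1 h2 h3
      simp only [pat, one_smul] at h1 h2 h3 ⊢
      rw [hok] at h2 h3
      rw [hfι] at h1
      rw [hfl, hfl]
      obtain ⟨i, σ, hz⟩ := (hCd.ex z).1 h2
      have hi : i = 0 := (hCd.base z i σ hz).1 h1
      subst hi
      have hz' := hCd.nb z 0 σ hz e.r (by simp [Elts.S1]) h3
      by_cases hσ : σ ∈ Val
      · rw [hlam_none _ _ _ hz hσ, hlam_none _ _ _ hz' hσ]
        rfl
      · rw [hlam_some _ _ _ hz hσ, hlam_some _ _ _ hz' hσ]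
        have h0 : lamElt e 0 σ = 1 := by simp [lamElt, wrd]
        rw [h0, one_smul, one_smul, (hθe σ hσ).1]
        rfl
    · intro h1 h2 h3
      simp only [pat, one_smul] at h1 h2 h3 ⊢
      rw [hok] at h1 h3
      rw [hfι] at h2
      rw [hfl, hfl]
      obtain ⟨i, σ, hz⟩ := (hCd.ex z).1 h1
      have hi : i = σ.length := (hCd.top z i σ hz).1 h2
      subst hi
      have hz' := hCd.nb z _ σ hz e.v (by simp [Elts.S1]) h3
      by_cases hσ : σ ∈ Val
      · rw [hlam_none _ _ _ hz hσ, hlam_none _ _ _ hz' hσ]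
        rfl
      · rw [hlam_some _ _ _ hz hσ, hlam_some _ _ _ hz' hσ]
        have h0 : lamElt e σ.length σ • e.v • z = vconj e σ • lamElt e σ.length σ • z := by
          rw [← mul_smul, ← mul_smul]
          congr 1
          rw [lamElt, List.take_length, vconj]
          have hc : Commute e.v ((e.x ^ σ.length)⁻¹) :=
            ((hG.xv.pow_left σ.length).symm).inv_right
          calc wrd e.s σ * (e.x ^ σ.length)⁻¹ * e.v
              = wrd e.s σ * (e.v * (e.x ^ σ.length)⁻¹) := by rw [mul_assoc, hc.eq]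
            _ = wrd e.s σ * e.v * (wrd e.s σ)⁻¹ * (wrd e.s σ * (e.x ^ σ.length)⁻¹) := by group
        rw [h0, (hθe σ hσ).2]
        rfl

end

end Pool.Agent.LCL89
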