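import Pool.Agent.LCL89.Lcl.Stmt

set_option autoImplicit false

/-!
# The labels `R` and `p`: proof of `StmtRP`
-/

namespace Pool.Agent.LCL89
namespace RPmod

/-- the first element of `P` is odd, seen from a shifted predicate -/
lemma par_shift (P P' : ℕ → Prop) (h0 : ¬ P 0) (h : ∀ n, P (n + 1) ↔ P' n) (hex : ∃ n, P n) :
    (∃ n, P n ∧ (∀ m < n, ¬ P m) ∧ Odd n) ↔ ¬ (∃ n, P' n ∧ (∀ m < n, ¬ P' m) ∧ Odd n) := by
  classical
  have hm : P (Nat.find hex) := Nat.find_spec hex
  have hmin : ∀ m < Nat.find hex, ¬ P m := fun m hm => Nat.find_min hex hm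
  obtain ⟨k, hk⟩ : ∃ k, Nat.find hex = k + 1 := by
    rcases Nat.eq_zero_or_eq_succ_pred (Nat.find hex) with h1 | h1
    · exact absurd (h1 ▸ hm) h0
    · exact ⟨_, h1⟩
  rw [hk] at hm hmin
  have hk' : P' k := (h k).1 hm
  have hkmin : ∀ m < k, ¬ P' m := fun m hmk hP => hmin (m + 1) (by omega) ((h m).2 hP)
  have e1 : (∃ n, P n ∧ (∀ m < n, ¬ P m) ∧ Odd n) ↔ Odd (k + 1) := by
    constructor
    · rintro ⟨n, hn, hnm, ho⟩
      have : n = k + 1 := by
        rcases lt_trichotomy n (k + 1) with h1 | h1 | h1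
        · exact absurd hn (hmin n h1)
        · exact h1
        · exact absurd hm (hnm _ h1)
      rwa [this] at ho
    · intro ho
      exact ⟨k + 1, hm, hmin, ho⟩
  have e2 : (∃ n, P' n ∧ (∀ m < n, ¬ P' m) ∧ Odd n) ↔ Odd k := by
    constructor
    · rintro ⟨n, hn, hnm, ho⟩
      have : n = k := by
        rcases lt_trichotomy n k with h1 | h1 | h1
        · exact absurd hn (hkmin n h1)
        · exact h1
        · exact absurd hk' (hnm _ h1)
      rwa [this] at ho
    · intro ho
      exact ⟨k, hk', hkmin, ho⟩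
  rw [e1, e2, Nat.odd_add_one]

section

variable {X : Type} (c : X ≃ X) (t' : X → X)

/-- the run from `z` to `c^k z` stays in `L` -/
def Run (L : Set X) (z : X) (k : ℤ) : Prop := ∀ i : ℤ, min 0 k ≤ i → i ≤ max 0 k → (c ^ i) z ∈ L

lemma run_shift {L : Set X} {z : X} (hz : z ∈ L) (hcz : c z ∈ L) (k : ℤ) :
    Run c L z k ↔ Run c L (c z) (k - 1) := by
  have key : ∀ i : ℤ, (c ^ i) (c z) = (c ^ (i + 1)) z := fun i => by
    rw [zpow_add_one, Equiv.Perm.mul_apply]
  constructor
  · intro h i h1 h2
    rw [key]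
    rcases eq_or_ne i 0 with h3 | h3
    · rw [h3]; simpa using hcz
    · apply h
      · omega
      · omega
  · intro h i h1 h2
    rcases eq_or_ne i 0 with h3 | h3
    · rw [h3]; simpa using hz
    · have := h (i - 1) (by omega) (by omega)
      rw [key] at this
      simpa using this

/-- proper extension among valid codes -/
def ext (Val : Set (List Bool)) (τ σ : List Bool) : Prop := τ ∈ Val ∧ σ ∈ Val ∧ σ <+: τ ∧ σ ≠ τ

lemma ext_wf (Val : Set (List Bool))
    (hwf : ∀ f : ℕ → List Bool, (∀ n, f n ∈ Val) → ¬ ∀ n, f n <+: f (n + 1) ∧ f n ≠ f (n + 1)) :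
    WellFounded (ext Val) := by
  rw [wellFounded_iff_isEmpty_descending_chain]
  refine ⟨fun ⟨f, hf⟩ => ?_⟩
  exact hwf f (fun n => (hf n).2.1) (fun n => (hf n).2.2)

variable {Val : Set (List Bool)} (wf : WellFounded (ext Val)) (Lv : List Bool → Set X)

/-- the set of points of code `σ` with `R = false` -/
noncomputable def F : List Bool → Set X :=
  wf.fix (C := fun _ => Set X) fun σ rec =>
    {z | z ∈ Lv σ ∧ ∃ k : ℤ, Run c (Lv σ) z k ∧ ¬ ∃ (τ : List Bool) (h : ext Val τ σ),
      t' ((c ^ k) z) ∈ rec τ h}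

lemma mem_F (σ : List Bool) (z : X) : z ∈ F c t' wf Lv σ ↔ z ∈ Lv σ ∧ ∃ k : ℤ, Run c (Lv σ) z k ∧
    ¬ ∃ (τ : List Bool) (_ : ext Val τ σ), t' ((c ^ k) z) ∈ F c t' wf Lv τ := by
  unfold F
  rw [wf.fix_eq]
  rfl

end

theorem stmtRP : StmtRP := by
  classical
  intro X _ c t' hc hcs ht Val Lv hwf hLv hVal huniq hcc hext
  have wf := ext_wf Val hwf
  have hpow : ∀ k : ℤ, Measurable fun z => (c ^ k) z := by
    intro k
    induction k using Int.induction_on with
    | zero => exact measurable_id
    | succ n ih =>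
      have : (fun z => (c ^ ((n : ℤ) + 1)) z) = fun z => (c ^ (n : ℤ)) (c z) := by
        funext z; rw [zpow_add_one, Equiv.Perm.mul_apply]
      rw [this]; exact ih.comp hc
    | pred n ih =>
      have : (fun z => (c ^ (-(n : ℤ) - 1)) z) = fun z => (c ^ (-(n : ℤ))) (c.symm z) := by
        funext z; rw [zpow_sub_one, Equiv.Perm.mul_apply]; rfl
      rw [this]; exact ih.comp hcs
  have hRun : ∀ (L : Set X), MeasurableSet L → ∀ k, MeasurableSet {z | Run c L z k} := by
    intro L hL k
    have : {z | Run c L z k} = ⋂ i : ℤ, {z | min 0 k ≤ i → i ≤ max 0 k → (c ^ i) z ∈ L} := by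
      ext z; simp [Run]
    rw [this]
    refine MeasurableSet.iInter fun i => ?_
    by_cases h1 : min 0 k ≤ i
    · by_cases h2 : i ≤ max 0 k
      · have : {z | min 0 k ≤ i → i ≤ max 0 k → (c ^ i) z ∈ L} = (fun z => (c ^ i) z) ⁻¹' L := by
          ext z; exact ⟨fun h => h h1 h2, fun h _ _ => h⟩
        rw [this]; exact hpow i hL
      · convert MeasurableSet.univ using 1
        ext z; exact ⟨fun _ => trivial, fun _ _ h => absurd h h2⟩
    · convert MeasurableSet.univ using 1
      ext z; exact ⟨fun _ => trivial, fun _ h => absurd h h1⟩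
  set Fs := F c t' wf Lv with hFs
  have memF := mem_F c t' wf Lv
  rw [← hFs] at memF
  have hF : ∀ σ, MeasurableSet (Fs σ) := by
    intro σ
    induction σ using wf.induction with
    | _ σ ih =>
      have : Fs σ = Lv σ ∩ ⋃ k : ℤ, ({z | Run c (Lv σ) z k} ∩
          ((fun z => t' ((c ^ k) z)) ⁻¹' ⋃ (τ : List Bool) (_ : ext Val τ σ), Fs τ)ᶜ) := by
        ext z
        rw [memF]
        simp only [Set.mem_inter_iff, Set.mem_iUnion, Set.mem_ofPred_eq, Set.mem_compl_iff,
          Set.mem_preimage, exists_prop]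
      rw [this]
      refine (hLv σ).inter (MeasurableSet.iUnion fun k => (hRun _ (hLv σ) k).inter
        ((ht.comp (hpow k)) ?_).compl)
      exact MeasurableSet.iUnion fun τ => MeasurableSet.iUnion fun hτ => ih τ hτ
  have FsubL : ∀ σ, Fs σ ⊆ Lv σ := fun σ z hz => ((memF σ z).1 hz).1
  have LvVal : ∀ σ z, z ∈ Lv σ → σ ∈ Val := by
    intro σ z hz
    by_contra h
    rw [hVal σ h] at hz
    exact hz
  -- the set of points with `R = false`
  set FF : Set X := ⋃ σ, Fs σ with hFF
  have hFFm : MeasurableSet FF := MeasurableSet.iUnion hF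
  have memFF : ∀ σ z, z ∈ Lv σ → (z ∈ FF ↔ z ∈ Fs σ) := by
    intro σ z hz
    rw [hFF, Set.mem_iUnion]
    constructor
    · rintro ⟨τ, hτ⟩
      rwa [huniq σ τ z hz (FsubL τ hτ)]
    · intro h; exact ⟨σ, h⟩
  have stepFF : ∀ σ z, z ∈ Lv σ → ((∃ (τ : List Bool) (_ : ext Val τ σ), t' z ∈ Fs τ) ↔
      t' z ∈ FF) := by
    intro σ z hz
    rw [hFF, Set.mem_iUnion]
    constructor
    · rintro ⟨τ, _, hτ⟩; exact ⟨τ, hτ⟩
    · rintro ⟨τ, hτ⟩
      have := hext σ τ z hz (FsubL τ hτ)
      exact ⟨τ, ⟨LvVal _ _ (FsubL τ hτ), LvVal _ _ hz, this.1, this.2⟩, hτ⟩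
  have memF' : ∀ σ z, z ∈ Fs σ ↔ z ∈ Lv σ ∧ ∃ k : ℤ, Run c (Lv σ) z k ∧ t' ((c ^ k) z) ∉ FF := by
    intro σ z
    rw [memF]
    refine and_congr_right fun hz => exists_congr fun k => and_congr_right fun hk => ?_
    rw [stepFF σ ((c ^ k) z) (hk k (by omega) (by omega))]
  set LL : Set X := ⋃ σ, Lv σ with hLL
  have hLLm : MeasurableSet LL := MeasurableSet.iUnion hLv
  set GG : Set X := {z | t' z ∉ FF} with hGG
  have hGGm : MeasurableSet GG := (ht hFFm).compl
  -- the predicates for `p`
  set P : (X ≃ X) → X → ℕ → Prop := fun d z n => (∀ i ≤ n, (d ^ i) z ∈ LL) ∧ (d ^ n) z ∈ GG with hP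
  have hnpow : ∀ d : X ≃ X, Measurable d → ∀ n : ℕ, Measurable fun z => (d ^ n) z := by
    intro d hd n
    induction n with
    | zero => exact measurable_id
    | succ n ih =>
      have : (fun z => (d ^ (n + 1)) z) = fun z => (d ^ n) (d z) := by
        funext z; rw [pow_succ, Equiv.Perm.mul_apply]
      rw [this]; exact ih.comp hd
  have hPm : ∀ d : X ≃ X, Measurable d → ∀ n, MeasurableSet {z | P d z n} := by
    intro d hd n
    have : {z | P d z n} = (⋂ i : ℕ, ⋂ _ : i ≤ n, (fun z => (d ^ i) z) ⁻¹' LL) ∩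
        (fun z => (d ^ n) z) ⁻¹' GG := by
      ext z; simp [hP]
    rw [this]
    exact (MeasurableSet.iInter fun i => MeasurableSet.iInter fun _ => hnpow d hd i hLLm).inter
      (hnpow d hd n hGGm)
  set O : (X ≃ X) → X → Prop := fun d z => ∃ n, P d z n ∧ (∀ m < n, ¬ P d z m) ∧ Odd n with hO
  have hOm : ∀ d : X ≃ X, Measurable d → MeasurableSet {z | O d z} := by
    intro d hd
    have : {z | O d z} = ⋃ n : ℕ, ⋃ _ : Odd n, ({z | P d z n} ∩ ⋂ m : ℕ, ⋂ _ : m < n,
        {z | P d z m}ᶜ) := by
      ext z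
      simp only [hO, Set.mem_ofPred_eq, Set.mem_iUnion, Set.mem_inter_iff, Set.mem_iInter,
        Set.mem_compl_iff, exists_prop]
      constructor
      · rintro ⟨n, h1, h2, h3⟩; exact ⟨n, h3, h1, h2⟩
      · rintro ⟨n, h3, h1, h2⟩; exact ⟨n, h1, h2, h3⟩
    rw [this]
    exact MeasurableSet.iUnion fun n => MeasurableSet.iUnion fun _ => (hPm d hd n).inter
      (MeasurableSet.iInter fun m => MeasurableSet.iInter fun _ => (hPm d hd m).compl)
  set E : X → Prop := fun z => O c z ∨ ((∀ n, ¬ P c z n) ∧ O c.symm z) with hE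
  have hEm : MeasurableSet {z | E z} := by
    have : {z | E z} = {z | O c z} ∪ ((⋂ n, {z | P c z n}ᶜ) ∩ {z | O c.symm z}) := by
      ext z; simp [hE]
    rw [this]
    exact (hOm c hc).union ((MeasurableSet.iInter fun n => (hPm c hc n).compl).inter (hOm _ hcs))
  refine ⟨fun z => decide (z ∉ FF), fun z => decide (E z), ?_, ?_, ?_, ?_, ?_⟩
  · refine measurable_to_bool ?_
    convert hFFm.compl using 1
    ext z; simp
  · refine measurable_to_bool ?_
    convert hEm using 1
    ext z; simp
  · intro z hz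
    simp only [decide_eq_true_eq]
    intro h
    rw [hFF, Set.mem_iUnion] at h
    obtain ⟨σ, hσ⟩ := h
    exact hz (Set.mem_iUnion.2 ⟨σ, FsubL σ hσ⟩)
  · intro z hz h
    simp only [decide_eq_true_eq, decide_eq_false_iff_not, not_not] at h ⊢
    rw [hLL, Set.mem_iUnion] at hz
    obtain ⟨σ, hσ⟩ := hz
    by_contra h2
    apply h
    rw [memFF σ z hσ, memF']
    refine ⟨hσ, 0, ?_, by simpa using h2⟩
    intro i h3 h4
    have : i = 0 := by simp at h3 h4; omega
    rw [this]; simpa using hσ
  · intro z hz hcz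
    have hz' := hz
    rw [hLL, Set.mem_iUnion] at hz hcz
    obtain ⟨σ, hσ⟩ := hz
    obtain ⟨σ', hσ'⟩ := hcz
    obtain rfl := hcc σ σ' z hσ hσ'
    have hcz' : c z ∈ LL := Set.mem_iUnion.2 ⟨σ, hσ'⟩
    have hR : (z ∈ FF ↔ c z ∈ FF) := by
      rw [memFF σ z hσ, memFF σ (c z) hσ', memF', memF']
      simp only [hσ, hσ', true_and]
      have key : ∀ i : ℤ, (c ^ i) (c z) = (c ^ (i + 1)) z := fun i => by
        rw [zpow_add_one, Equiv.Perm.mul_apply]
      constructor
      · rintro ⟨k, hk, hk2⟩
        refine ⟨k - 1, (run_shift c hσ hσ' k).1 hk, ?_⟩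
        rw [key]; simpa using hk2
      · rintro ⟨k, hk, hk2⟩
        refine ⟨k + 1, (run_shift c hσ hσ' (k + 1)).2 (by simpa using hk), ?_⟩
        rw [key] at hk2; exact hk2
    refine ⟨?_, ?_⟩
    · simp [hR]
    · intro h1 h2 h3
      simp only [decide_eq_false_iff_not, not_not] at h1 h2 h3
      have hzG : z ∉ GG := fun h => h h2
      have hczG : c z ∉ GG := fun h => h h3
      have P0 : ¬ P c z 0 := fun h => hzG (by simpa using h.2)
      have Q0 : ¬ P c.symm (c z) 0 := fun h => hczG (by simpa using h.2)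
      have hPs : ∀ n, P c z (n + 1) ↔ P c (c z) n := by
        intro n
        have key : ∀ i : ℕ, (c ^ (i + 1)) z = (c ^ i) (c z) := fun i => by
          rw [pow_succ, Equiv.Perm.mul_apply]
        constructor
        · intro h
          refine ⟨fun i hi => ?_, ?_⟩
          · rw [← key]; exact h.1 _ (by omega)
          · rw [← key]; exact h.2
        · intro h
          refine ⟨fun i hi => ?_, ?_⟩
          · rcases i with _ | i
            · simpa using hz'
            · rw [key]; exact h.1 _ (by omega)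
          · rw [key]; exact h.2
      have hQs : ∀ n, P c.symm (c z) (n + 1) ↔ P c.symm z n := by
        intro n
        have key : ∀ i : ℕ, (c.symm ^ (i + 1) : X ≃ X) (c z) = (c.symm ^ i : X ≃ X) z := fun i => by
          rw [pow_succ, Equiv.Perm.mul_apply, Equiv.symm_apply_apply]
        constructor
        · intro h
          refine ⟨fun i hi => ?_, ?_⟩
          · rw [← key]; exact h.1 _ (by omega)
          · rw [← key]; exact h.2
        · intro h
          refine ⟨fun i hi => ?_, ?_⟩
          · rcases i with _ | i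
            · simpa using hcz'
            · rw [key]; exact h.1 _ (by omega)
          · rw [key]; exact h.2
      have main : E z ↔ ¬ E (c z) := by
        by_cases hex : ∃ n, P c z n
        · have h4 := par_shift (P c z) (P c (c z)) P0 hPs hex
          have h5 : ¬ ∀ n, ¬ P c z n := fun h => hex.elim fun n hn => h n hn
          have h6 : ¬ ∀ n, ¬ P c (c z) n := by
            intro h
            obtain ⟨n, hn⟩ := hex
            rcases n with _ | n
            · exact P0 hn
            · exact h n ((hPs n).1 hn)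
          simp only [hE, h5, h6, false_and, or_false]
          exact h4
        · have h5 : ∀ n, ¬ P c z n := fun n hn => hex ⟨n, hn⟩
          have h6 : ∀ n, ¬ P c (c z) n := fun n hn => h5 (n + 1) ((hPs n).2 hn)
          have h7 : ¬ O c z := fun ⟨n, hn, _⟩ => h5 n hn
          have h8 : ¬ O c (c z) := fun ⟨n, hn, _⟩ => h6 n hn
          -- the left distance exists
          have hq : ∃ n, P c.symm z n := by
            rw [memFF σ z hσ, memF'] at h1
            obtain ⟨_, k, hk, hk2⟩ := h1
            rcases le_or_gt 0 k with hk0 | hk0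
            · exfalso
              obtain ⟨n, rfl⟩ := Int.eq_ofNat_of_zero_le hk0
              refine h5 n ⟨fun i hi => ?_, hk2⟩
              have := hk i (by omega) (by omega)
              exact Set.mem_iUnion.2 ⟨σ, by simpa using this⟩
            · obtain ⟨n, hn⟩ := Int.eq_ofNat_of_zero_le (show 0 ≤ -k by omega)
              have hpw : ∀ i : ℕ, (c.symm ^ i : X ≃ X) z = (c ^ (-(i : ℤ))) z := by
                intro i
                rw [zpow_neg, ← inv_zpow, zpow_natCast]
                rfl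
              refine ⟨n, fun i hi => ?_, ?_⟩
              · rw [hpw]
                exact Set.mem_iUnion.2 ⟨σ, hk _ (by omega) (by omega)⟩
              · rw [hpw, ← hn, neg_neg]
                exact hk2
          have hq' : ∃ n, P c.symm (c z) n := by
            obtain ⟨n, hn⟩ := hq
            exact ⟨n + 1, (hQs n).2 hn⟩
          have h9 := par_shift (P c.symm (c z)) (P c.symm z) Q0 hQs hq'
          simp only [hE, h5, h6, h7, h8, false_or, not_false_eq_true, implies_true, true_and]
          rw [iff_not_comm]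
          exact h9
      intro h
      have h' : E z ↔ E (c z) := by
        simpa using h
      rw [h'] at main
      exact (not_iff_self main.symm)

end RPmod

theorem rp : StmtRP := RPmod.stmtRP

end Pool.Agent.LCL89
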