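import Pool.Agent.LCL89.Lcl.Stmt

set_option autoImplicit false

/-!
# The window lemma and the assembly of Borel solutions
-/

namespace Pool.Agent.LCL89

section Window

variable {Γ : Type} [Group Γ]

lemma mem_window_iff (e : Elts Γ) (g : Γ) : g ∈ window e ↔
    (g = 1 ∨ g = e.a ∨ g = e.x ∨ g = e.x⁻¹ ∨ g = e.t⁻¹ ∨ g = e.x * e.t⁻¹ ∨ g = e.t⁻¹ * e.c ∨
      g = e.x * (e.s false)⁻¹ ∨ g = e.x * (e.s true)⁻¹) ∨ g ∈ e.S1 ∨
      ∃ h ∈ e.S1, e.x * h = g := by
  classical
  unfold window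
  rw [List.mem_toFinset]
  simp only [List.mem_append, List.mem_cons, List.not_mem_nil, or_false, List.mem_map]
  tauto

lemma rules_of_agree (e : Elts Γ) (F F' : Γ → Lab) (h : ∀ g ∈ window e, F g = F' g)
    (hF : Rules e F) : Rules e F' := by
  have w1 : F 1 = F' 1 := h _ (by rw [mem_window_iff]; simp)
  have wa : F e.a = F' e.a := h _ (by rw [mem_window_iff]; simp)
  have wx : F e.x = F' e.x := h _ (by rw [mem_window_iff]; simp)
  have wxi : F e.x⁻¹ = F' e.x⁻¹ := h _ (by rw [mem_window_iff]; simp)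
  have wt : F e.t⁻¹ = F' e.t⁻¹ := h _ (by rw [mem_window_iff]; simp)
  have wxt : F (e.x * e.t⁻¹) = F' (e.x * e.t⁻¹) := h _ (by rw [mem_window_iff]; simp)
  have wtc : F (e.t⁻¹ * e.c) = F' (e.t⁻¹ * e.c) := h _ (by rw [mem_window_iff]; simp)
  have ws : ∀ b, F (e.x * (e.s b)⁻¹) = F' (e.x * (e.s b)⁻¹) := by
    intro b
    refine h _ ?_
    rw [mem_window_iff]
    cases b
    · exact Or.inl (by simp)
    · exact Or.inl (by simp)
  have wS : ∀ g ∈ e.S1, F g = F' g := fun g hg => h _ (by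
    rw [mem_window_iff]; exact Or.inr (Or.inl hg))
  have wxS : ∀ g ∈ e.S1, F (e.x * g) = F' (e.x * g) := fun g hg => h _ (by
    rw [mem_window_iff]; exact Or.inr (Or.inr ⟨g, hg, rfl⟩))
  have wc : F e.c = F' e.c := wS _ (by simp [Elts.S1])
  have wr : F e.r = F' e.r := wS _ (by simp [Elts.S1])
  have wv : F e.v = F' e.v := wS _ (by simp [Elts.S1])
  have hErr : Err e F ↔ Err e F' := by
    unfold Err
    rw [w1, wx, wt, wxt]
    refine or_congr ?_ Iff.rfl
    constructor
    · rintro ⟨g, hg, hh⟩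
      refine ⟨g, hg, ?_⟩
      rw [← wS g hg, ← wxS g hg]
      exact hh
    · rintro ⟨g, hg, hh⟩
      refine ⟨g, hg, ?_⟩
      rw [wS g hg, wxS g hg]
      exact hh
  obtain ⟨h1, h2, h3, h4, h5, h6, h7, h8, h9⟩ := hF
  refine ⟨?_, ?_, ?_, ?_, ?_, ?_, ?_, ?_, ?_⟩
  · unfold L1 at h1 ⊢
    rw [← w1, ← wa]
    exact h1
  · unfold L2 at h2 ⊢
    rw [← w1, ← wx, ← hErr]
    exact h2
  · unfold L3 at h3 ⊢
    rw [← w1, ← wxi, ← hErr]
    exact h3
  · unfold L4 at h4 ⊢
    intro b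
    rw [← w1, ← wx, ← ws b]
    exact h4 b
  · unfold L5 at h5 ⊢
    rw [← w1, ← wr]
    exact h5
  · unfold L6 at h6 ⊢
    rw [← w1, ← wx, ← wv]
    exact h6
  · unfold L7 at h7 ⊢
    rw [← w1]
    exact h7
  · unfold L8 at h8 ⊢
    rw [← w1, ← wt]
    exact h8
  · unfold L9 at h9 ⊢
    rw [← w1, ← wt, ← wc, ← wtc]
    exact h9

/-- the window lemma -/
theorem windowStmt : StmtWindow := by
  intro Γ _ e X _ f
  have key : ∀ z : X, Rules e (extend (window e) (fun γ : (window e) => f ((γ : Γ) • z))) ↔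
      Rules e (pat f z) := by
    intro z
    have hag : ∀ g ∈ window e,
        extend (window e) (fun γ : (window e) => f ((γ : Γ) • z)) g = pat f z g := by
      intro g hg
      unfold extend pat
      rw [dif_pos hg]
    exact ⟨rules_of_agree e _ _ hag, rules_of_agree e _ _ (fun g hg => (hag g hg).symm)⟩
  constructor
  · intro h z
    exact (key z).1 (h z)
  · intro h z
    exact (key z).2 (h z)

end Window

section Assembly

/-- the cyclic group of order three, multiplicatively -/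
abbrev C3 : Type := Multiplicative (ZMod 3)

/-- the homomorphism from the cyclic group of order three given by an element of order dividing
three -/
def c3Hom {Γ : Type} [Group Γ] (a : Γ) (ha : a ^ 3 = 1) : C3 →* Γ where
  toFun q := a ^ (Multiplicative.toAdd q).val
  map_one' := by simp
  map_mul' p q := by
    rw [toAdd_mul, ZMod.val_add, ← pow_add]
    exact (pow_eq_pow_mod _ ha).symm

/-- the translation action of the cyclic group of order three -/
def c3Perm : C3 →* Equiv.Perm (ZMod 3) where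
  toFun q := Equiv.addLeft (Multiplicative.toAdd q)
  map_one' := by
    ext i
    simp
  map_mul' p q := by
    ext i
    simp

lemma exists_iota (hFG : StmtFinGroup) {Γ : Type} [Group Γ] (a : Γ) (ha : a ≠ 1)
    (ha3 : a ^ 3 = 1) {X : Type} [MeasurableSpace X] [StandardBorelSpace X] [MulAction Γ X]
    (hm : ∀ γ : Γ, Measurable fun x : X => γ • x) (hf : FreeAct Γ X) :
    ∃ ι : X → ZMod 3, (∀ l, MeasurableSet (ι ⁻¹' {l})) ∧ ∀ x : X, ι (a • x) = ι x + 1 := by
  let act : MulAction C3 X := MulAction.compHom X (c3Hom a ha3)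
  have hact : ∀ (q : C3) (x : X), q • x = (a ^ (Multiplicative.toAdd q).val) • x :=
    fun _ _ => rfl
  have : Finite (ZMod 3) := inferInstanceAs (Finite (Fin 3))
  have : Finite C3 := inferInstanceAs (Finite (ZMod 3))
  obtain ⟨θ, h1, h2⟩ := hFG (X := X) C3 (fun q => hm _) (by
    intro q x hq
    rw [hact] at hq
    have h := hf _ x hq
    have ha2 : a ^ 2 ≠ 1 := by
      intro h2
      apply ha
      calc a = a ^ 3 * (a ^ 2)⁻¹ := by group
        _ = 1 := by rw [ha3, h2]; simp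
    have hcases : ∀ k : ZMod 3, a ^ k.val = 1 → k = 0 := by
      intro k hk
      fin_cases k
      · rfl
      · exfalso
        have hk1 : a ^ 1 = 1 := hk
        rw [pow_one] at hk1
        exact ha hk1
      · exfalso
        exact ha2 hk
    have := hcases _ h
    exact Multiplicative.toAdd.injective this) (L := ZMod 3) c3Perm ⟨0⟩
  refine ⟨θ, h1, ?_⟩
  intro x
  have h := h2 (Multiplicative.ofAdd (1 : ZMod 3)) x
  rw [hact] at h
  have hv : (Multiplicative.toAdd (Multiplicative.ofAdd (1 : ZMod 3))).val = 1 := by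
    rw [toAdd_ofAdd]; rfl
  rw [hv, pow_one] at h
  rw [h]
  show (1 : ZMod 3) + θ x = θ x + 1
  exact add_comm _ _

/-- assembly: the LCL has Borel solutions -/
theorem borelSolution : StmtRP → StmtUN → StmtLam → StmtFinGroup → StmtBorelSolution := by
  intro hRP hUN hLam hFG Γ _ _ e Val hG X _ _ _ hm hf
  obtain ⟨ι, hι, hιa⟩ := exists_iota hFG e.a hG.a_ne hG.a_pow hm hf
  obtain ⟨U, N, Cd, hU, hN, hCd, hCodes, hLN⟩ := hUN e Val hG hm ι hι
  obtain ⟨lam, hlam, hlamv, hL456⟩ := hLam e Val hG hm hf ι U N Cd hCd hCodes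
  -- live points
  obtain ⟨R, p, hR, hp, hR1, hR2, hR3⟩ := hRP (X := X) (MulAction.toPerm e.c)
    (fun z => e.t⁻¹ • z) (hm e.c) (hm e.c⁻¹) (hm e.t⁻¹) Val
    (fun σ => {z | σ ∈ Val ∧ z ∈ Cd 0 σ}) hG.wf
    (by
      intro σ
      by_cases hσ : σ ∈ Val
      · have : {z | σ ∈ Val ∧ z ∈ Cd 0 σ} = Cd 0 σ := by
          ext z; simp [hσ]
        rw [this]
        exact hCd 0 σ
      · have : {z | σ ∈ Val ∧ z ∈ Cd 0 σ} = (∅ : Set X) := by
          ext z; simp [hσ]
        rw [this]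
        exact MeasurableSet.empty)
    (by
      intro σ hσ
      ext z
      simp [hσ])
    (by
      intro σ σ' z h1 h2
      exact (hCodes.uniq z 0 σ 0 σ' h1.2 h2.2).2)
    (by
      intro σ σ' z h1 h2
      have hok : U (e.c • z) = false ∧ N (e.c • z) = false :=
        (hCodes.ex (e.c • z)).2 ⟨0, σ', h2.2⟩
      have hc := hCodes.nb z 0 σ h1.2 e.c (by simp [Elts.S1]) hok
      exact (hCodes.uniq _ 0 σ 0 σ' hc h2.2).2)
    (by
      intro σ σ' z h1 h2
      exact (hCodes.child z σ 0 σ' h1.2 h2.2).2)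
  let f : X → Lab := fun z => ⟨ι z, U z, N z, lam z, R z, p z⟩
  have hlive : ∀ z, (f z).live ↔ z ∈ ⋃ σ, {z | σ ∈ Val ∧ z ∈ Cd 0 σ} := by
    intro z
    constructor
    · rintro ⟨h1, h2, h3⟩
      obtain ⟨i, σ, hz⟩ := (hCodes.ex z).1 h2
      have hi : i = 0 := (hCodes.base z i σ hz).1 h1
      subst hi
      exact Set.mem_iUnion.2 ⟨σ, (hlamv z 0 σ hz).1 h3, hz⟩
    · intro h
      obtain ⟨σ, hσ, hz⟩ := Set.mem_iUnion.1 h
      exact ⟨(hCodes.base z 0 σ hz).2 rfl, (hCodes.ex z).2 ⟨0, σ, hz⟩, (hlamv z 0 σ hz).2 hσ⟩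
  have hpat1 : ∀ z, pat f z (1 : Γ) = f z := fun z => by unfold pat; rw [one_smul]
  have hfm : ∀ l : Lab, MeasurableSet (f ⁻¹' {l}) := by
    intro l
    have : f ⁻¹' {l} = (ι ⁻¹' {l.ι}) ∩ ((U ⁻¹' {l.U}) ∩ ((N ⁻¹' {l.N}) ∩ ((lam ⁻¹' {l.lam}) ∩
        ((R ⁻¹' {l.R}) ∩ (p ⁻¹' {l.p}))))) := by
      ext z
      simp only [Set.mem_preimage, Set.mem_singleton_iff, Set.mem_inter_iff, f]
      constructor
      · intro h
        subst h
        exact ⟨rfl, rfl, rfl, rfl, rfl, rfl⟩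
      · rintro ⟨h1, h2, h3, h4, h5, h6⟩
        rw [h1, h2, h3, h4, h5, h6]
    rw [this]
    exact (hι _).inter ((hU (measurableSet_singleton _)).inter
      ((hN (measurableSet_singleton _)).inter ((hlam _).inter
        ((hR (measurableSet_singleton _)).inter (hp (measurableSet_singleton _))))))
  refine ⟨f, hfm, ?_⟩
  · refine (windowStmt e f).2 ?_
    intro z
    have h23 := hLN f (fun _ => rfl) (fun _ => rfl) (fun _ => rfl) z
    have h456 := hL456 f (fun _ => rfl) (fun _ => rfl) (fun _ => rfl) (fun _ => rfl) z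
    refine ⟨?_, h23.1, h23.2, h456.1, h456.2.1, h456.2.2, ?_, ?_, ?_⟩
    · unfold L1
      rw [hpat1]
      exact hιa z
    · unfold L7
      rw [hpat1]
      intro h
      exact hR1 z (fun h' => h ((hlive z).2 h'))
    · unfold L8
      rw [hpat1]
      intro h1 h2
      exact hR2 z ((hlive z).1 h1) h2
    · unfold L9
      rw [hpat1]
      intro h1 h2
      have h := hR3 z ((hlive z).1 h1) ((hlive _).1 h2)
      refine ⟨h.1, ?_⟩
      intro a1 a2 a3
      refine h.2 a1 a2 ?_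
      have a3' : R ((e.t⁻¹ * e.c) • z) = false := a3
      rw [mul_smul] at a3'
      exact a3'

end Assembly

end Pool.Agent.LCL89
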