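import Pool.Agent.LCL89.Lcl.Defs

set_option autoImplicit false

/-!
# Existence of Borel solutions: statements of the modules
-/

namespace Pool.Agent.LCL89

/-- RP: the labels `R`, `p`.  `Lv σ` = live points with code `σ`, `t'` = the action of `t⁻¹`. -/
def StmtRP : Prop :=
  ∀ {X : Type} [MeasurableSpace X] (c : X ≃ X) (t' : X → X), Measurable c → Measurable c.symm →
    Measurable t' → ∀ (Val : Set (List Bool)) (Lv : List Bool → Set X),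
    (∀ f : ℕ → List Bool, (∀ n, f n ∈ Val) → ¬ ∀ n, f n <+: f (n + 1) ∧ f n ≠ f (n + 1)) →
    (∀ σ, MeasurableSet (Lv σ)) → (∀ σ, σ ∉ Val → Lv σ = ∅) →
    (∀ σ σ' z, z ∈ Lv σ → z ∈ Lv σ' → σ = σ') →
    (∀ σ σ' z, z ∈ Lv σ → c z ∈ Lv σ' → σ = σ') →
    (∀ σ σ' z, z ∈ Lv σ → t' z ∈ Lv σ' → σ <+: σ' ∧ σ ≠ σ') →
    ∃ R p : X → Bool, Measurable R ∧ Measurable p ∧
      (∀ z, z ∉ ⋃ σ, Lv σ → R z = true) ∧
      (∀ z, z ∈ ⋃ σ, Lv σ → R z = true → R (t' z) = false) ∧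
      (∀ z, z ∈ ⋃ σ, Lv σ → c z ∈ ⋃ σ, Lv σ → R z = R (c z) ∧
        (R z = false → R (t' z) = false → R (t' (c z)) = false → p z ≠ p (c z)))

/-- properties of the codes: `z ∈ Cd i σ` = the point `z` is at height `i` in an error free finite
block with code `σ`, with respect to the labels `ι`, `U`, `N` -/
structure Codes {Γ : Type} [Group Γ] (e : Elts Γ) {X : Type} [MulAction Γ X]
    (ι : X → ZMod 3) (ok : X → Prop) (Cd : ℕ → List Bool → Set X) : Prop where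
  ex : ∀ z, ok z ↔ ∃ i σ, z ∈ Cd i σ
  uniq : ∀ z i σ j τ, z ∈ Cd i σ → z ∈ Cd j τ → i = j ∧ σ = τ
  le : ∀ z i σ, z ∈ Cd i σ → i ≤ σ.length
  base : ∀ z i σ, z ∈ Cd i σ → (ι z = 2 ↔ i = 0)
  top : ∀ z i σ, z ∈ Cd i σ → (ι (e.x • z) = 2 ↔ i = σ.length)
  bit : ∀ z i σ, z ∈ Cd i σ → ∀ h : i < σ.length, ι (e.x • z) = bitSym σ[i]
  nb : ∀ z i σ, z ∈ Cd i σ → ∀ h ∈ e.S1, ok (h • z) → h • z ∈ Cd i σ
  chain : ∀ z i σ, z ∈ Cd i σ → ∀ h : i < σ.length, ok ((e.x * (e.s σ[i])⁻¹) • z) →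
    (e.x * (e.s σ[i])⁻¹) • z ∈ Cd (i + 1) σ
  child : ∀ z σ j τ, z ∈ Cd 0 σ → e.t⁻¹ • z ∈ Cd j τ → j = 0 ∧ σ <+: τ ∧ σ ≠ τ

/-- UN: the labels `U`, `N` and the codes -/
def StmtUN : Prop :=
  ∀ {Γ : Type} [Group Γ] [Countable Γ] (e : Elts Γ) (Val : Set (List Bool)), Good e Val →
    ∀ {X : Type} [MeasurableSpace X] [MulAction Γ X], (∀ γ : Γ, Measurable fun x : X => γ • x) →
      ∀ ι : X → ZMod 3, (∀ l, MeasurableSet (ι ⁻¹' {l})) →
        ∃ (U N : X → Bool) (Cd : ℕ → List Bool → Set X), Measurable U ∧ Measurable N ∧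
          (∀ i σ, MeasurableSet (Cd i σ)) ∧ Codes e ι (fun z => U z = false ∧ N z = false) Cd ∧
          ∀ (f : X → Lab), (∀ z, (f z).ι = ι z) → (∀ z, (f z).U = U z) → (∀ z, (f z).N = N z) →
            ∀ z, L2 e (pat f z) ∧ L3 e (pat f z)

/-- LA: the label `lam` -/
def StmtLam : Prop :=
  ∀ {Γ : Type} [Group Γ] [Countable Γ] (e : Elts Γ) (Val : Set (List Bool)), Good e Val →
    ∀ {X : Type} [MeasurableSpace X] [StandardBorelSpace X] [MulAction Γ X],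
      (∀ γ : Γ, Measurable fun x : X => γ • x) → FreeAct Γ X →
      ∀ (ι : X → ZMod 3) (U N : X → Bool) (Cd : ℕ → List Bool → Set X),
        (∀ i σ, MeasurableSet (Cd i σ)) → Codes e ι (fun z => U z = false ∧ N z = false) Cd →
        ∃ lam : X → Option (ZMod 4), (∀ l, MeasurableSet (lam ⁻¹' {l})) ∧
          (∀ z i σ, z ∈ Cd i σ → (lam z = none ↔ σ ∈ Val)) ∧
          ∀ (f : X → Lab), (∀ z, (f z).ι = ι z) → (∀ z, (f z).U = U z) → (∀ z, (f z).N = N z) →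
            (∀ z, (f z).lam = lam z) → ∀ z, L4 e (pat f z) ∧ L5 e (pat f z) ∧ L6 e (pat f z)

end Pool.Agent.LCL89
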