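import Pool.Agent.LCL89.Lcl.Stmt

set_option autoImplicit false

/-!
# The labels `U`, `N` and the codes
-/

namespace Pool.Agent.LCL89

namespace UNm

variable {Γ : Type} [Group Γ] {X : Type} [MulAction Γ X]

/-- the symbol sequence seen from `z` -/
def sqn (e : Elts Γ) (ι : X → ZMod 3) (z : X) (n : ℤ) : ZMod 3 := ι (e.x ^ n • z)

/-- errors in terms of `ι` -/
def ErrX (e : Elts Γ) (ι : X → ZMod 3) (z : X) : Prop :=
  Err e (pat (fun w => (⟨ι w, false, false, none, false, false⟩ : Lab)) z)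

/-- error at or above `z` in the block, or block infinite upward -/
def Up (e : Elts Γ) (ι : X → ZMod 3) (z : X) : Prop :=
  (∃ n : ℕ, ErrX e ι (e.x ^ (n : ℤ) • z) ∧ ∀ m : ℕ, 1 ≤ m → m ≤ n → sqn e ι z m ≠ 2) ∨
    ∀ m : ℕ, 1 ≤ m → sqn e ι z m ≠ 2

/-- error at or below `z` in the block, or block infinite downward -/
def Dn (e : Elts Γ) (ι : X → ZMod 3) (z : X) : Prop :=
  (∃ n : ℕ, ErrX e ι (e.x ^ (-(n : ℤ)) • z) ∧ ∀ m : ℕ, m < n → sqn e ι z (-(m : ℤ)) ≠ 2) ∨
    ∀ m : ℕ, sqn e ι z (-(m : ℤ)) ≠ 2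

/-- the symbol sequence `s` is at height `i` of a finite block with code `σ` -/
def Pt (s : ℤ → ZMod 3) (i : ℕ) (σ : List Bool) : Prop :=
  i ≤ σ.length ∧ s (-(i : ℤ)) = 2 ∧ (∀ (k : ℕ) (h : k < σ.length), s (k + 1 - i) = bitSym σ[k]) ∧
    s (σ.length + 1 - i) = 2

theorem bitSym_ne (b : Bool) : bitSym b ≠ 2 := by cases b <;> decide

theorem bitSym_inj {b b' : Bool} (h : bitSym b = bitSym b') : b = b' := by
  cases b <;> cases b' <;> first | rfl | (exact absurd h (by decide))

theorem exists_bit {a : ZMod 3} (h : a ≠ 2) : a = bitSym (decide (a = 1)) := by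
  revert h; revert a; decide

theorem Pt.ne {s : ℤ → ZMod 3} {i : ℕ} {σ : List Bool} (h : Pt s i σ) (n : ℤ)
    (h1 : -(i : ℤ) < n) (h2 : n ≤ σ.length - i) : s n ≠ 2 := by
  obtain ⟨k, rfl⟩ : ∃ k : ℕ, n = k + 1 - i := ⟨(n + i - 1).toNat, by omega⟩
  rw [h.2.2.1 k (by omega)]
  exact bitSym_ne _

theorem Pt.uniq {s : ℤ → ZMod 3} {i j : ℕ} {σ τ : List Bool} (h : Pt s i σ) (h' : Pt s j τ) :
    i = j ∧ σ = τ := by
  have hij : i = j := by
    rcases lt_trichotomy i j with hlt | heq | hgt
    · exfalso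
      exact h'.ne (-(i : ℤ)) (by omega) (by have := h'.1; omega) h.2.1
    · exact heq
    · exfalso
      exact h.ne (-(j : ℤ)) (by omega) (by have := h.1; omega) h'.2.1
  subst hij
  have hlen : σ.length = τ.length := by
    rcases lt_trichotomy σ.length τ.length with hlt | heq | hgt
    · exfalso
      exact h'.ne (σ.length + 1 - i) (by have := h.1; omega) (by omega) h.2.2.2
    · exact heq
    · exfalso
      exact h.ne (τ.length + 1 - i) (by have := h'.1; omega) (by omega) h'.2.2.2
  refine ⟨rfl, List.ext_getElem hlen fun k h1 h2 => ?_⟩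
  apply bitSym_inj
  rw [← h.2.2.1 k h1, ← h'.2.2.1 k h2]

/-- the blocks -/
def CdS (e : Elts Γ) (ι : X → ZMod 3) (i : ℕ) (σ : List Bool) : Set X :=
  {z | (¬ Up e ι z ∧ ¬ Dn e ι z) ∧ Pt (sqn e ι z) i σ}

theorem sqn_zpow (e : Elts Γ) (ι : X → ZMod 3) (z : X) (n m : ℤ) :
    sqn e ι (e.x ^ n • z) m = sqn e ι z (m + n) := by
  unfold sqn
  rw [smul_smul, ← zpow_add]

theorem noErr {e : Elts Γ} {ι : X → ZMod 3} {z : X} {i : ℕ} {σ : List Bool}
    (h : z ∈ CdS e ι i σ) (n : ℤ) (h1 : -(i : ℤ) ≤ n) (h2 : n ≤ σ.length - i) :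
    ¬ ErrX e ι (e.x ^ n • z) := by
  obtain ⟨⟨hU, hD⟩, hP⟩ := h
  unfold Up at hU
  unfold Dn at hD
  push Not at hU hD
  intro hE
  rcases le_or_gt 0 n with hn | hn
  · obtain ⟨m, rfl⟩ := Int.eq_ofNat_of_zero_le hn
    obtain ⟨k, hk1, hk2, hk3⟩ := hU.1 m hE
    exact hP.ne k (by omega) (by omega) hk3
  · obtain ⟨m, rfl⟩ : ∃ m : ℕ, n = -(m : ℤ) := ⟨(-n).toNat, by omega⟩
    obtain ⟨k, hk1, hk2⟩ := hD.1 m hE
    exact hP.ne (-(k : ℤ)) (by omega) (by have := hP.1; omega) hk2

theorem exists_Pt {e : Elts Γ} {ι : X → ZMod 3} {z : X} (hU : ¬ Up e ι z) (hD : ¬ Dn e ι z) :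
    ∃ i σ, Pt (sqn e ι z) i σ := by
  classical
  unfold Up at hU
  unfold Dn at hD
  push Not at hU hD
  obtain ⟨-, hU2⟩ := hU
  obtain ⟨-, hD2⟩ := hD
  have hU3 : ∃ m : ℕ, sqn e ι z ((m : ℤ) + 1) = 2 := by
    obtain ⟨m, h1, h2⟩ := hU2
    exact ⟨m - 1, by rw [← h2]; congr 1; omega⟩
  set i := Nat.find hD2 with hi
  set l := Nat.find hU3 with hl
  have hi1 : sqn e ι z (-(i : ℤ)) = 2 := Nat.find_spec hD2
  have hi2 : ∀ m : ℕ, m < i → sqn e ι z (-(m : ℤ)) ≠ 2 := fun m hm => Nat.find_min hD2 hm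
  have hl1 : sqn e ι z ((l : ℤ) + 1) = 2 := Nat.find_spec hU3
  have hl2 : ∀ m : ℕ, m < l → sqn e ι z ((m : ℤ) + 1) ≠ 2 := fun m hm => Nat.find_min hU3 hm
  refine ⟨i, (List.range (i + l)).map (fun k : ℕ => decide (sqn e ι z ((k : ℤ) + 1 - i) = 1)), ?_, hi1, ?_,
    ?_⟩
  · simp
  · intro k hk
    simp only [List.length_map, List.length_range] at hk
    simp only [List.getElem_map, List.getElem_range]
    apply exists_bit
    rcases lt_or_ge k i with h | h
    · have := hi2 (i - 1 - k) (by omega)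
      rwa [show (k : ℤ) + 1 - i = -((i - 1 - k : ℕ) : ℤ) by omega]
    · have := hl2 (k - i) (by omega)
      rwa [show (k : ℤ) + 1 - i = ((k - i : ℕ) : ℤ) + 1 by omega]
  · simp only [List.length_map, List.length_range]
    rw [← hl1]
    congr 1
    push_cast
    omega

theorem Pt.congr {s s' : ℤ → ZMod 3} {i : ℕ} {σ : List Bool} (h : Pt s i σ)
    (hs : ∀ n : ℤ, -(i : ℤ) ≤ n → n ≤ σ.length + 1 - i → s' n = s n) : Pt s' i σ := by
  refine ⟨h.1, ?_, fun k hk => ?_, ?_⟩
  · rw [hs _ (by omega) (by have := h.1; omega)]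
    exact h.2.1
  · rw [hs _ (by omega) (by omega)]
    exact h.2.2.1 k hk
  · rw [hs _ (by have := h.1; omega) (by omega)]
    exact h.2.2.2

theorem commS1 {e : Elts Γ} {V : Set (List Bool)} (hG : Good e V) :
    ∀ h ∈ e.S1, Commute e.x h := by
  intro h hh
  simp only [Elts.S1, List.mem_cons, List.not_mem_nil, or_false] at hh
  rcases hh with rfl | rfl | rfl | rfl | rfl | rfl | rfl | rfl
  · exact hG.xc
  · exact hG.xc.inv_right
  · exact hG.xr
  · exact hG.xv
  · exact hG.xs false
  · exact (hG.xs false).inv_right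
  · exact hG.xs true
  · exact (hG.xs true).inv_right

theorem err_clauses {e : Elts Γ} {ι : X → ZMod 3} {z : X} (h : ¬ ErrX e ι z) :
    (∀ g ∈ e.S1, ι (g • z) = ι z ∧ ι ((e.x * g) • z) = ι (e.x • z)) ∧
      ι (e.t⁻¹ • z) = ι z ∧ ¬ (ι (e.x • z) = 2 ∧ ι ((e.x * e.t⁻¹) • z) = 2) := by
  unfold ErrX Err pat at h
  simp only [one_smul, not_or] at h
  obtain ⟨h1, h2, h3⟩ := h
  refine ⟨fun g hg => ?_, not_not.1 h2, h3⟩
  by_contra hc
  apply h1
  refine ⟨g, hg, ?_⟩
  by_contra hc'
  rw [not_or, not_not, not_not] at hc'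
  exact hc hc'

theorem sqn_S1 {e : Elts Γ} {ι : X → ZMod 3} {V : Set (List Bool)} (hG : Good e V) {z : X} {i : ℕ}
    {σ : List Bool} (h : z ∈ CdS e ι i σ) {g : Γ} (hg : g ∈ e.S1) (n : ℤ) (h1 : -(i : ℤ) ≤ n)
    (h2 : n ≤ σ.length + 1 - i) : sqn e ι (g • z) n = sqn e ι z n := by
  have hc := commS1 hG g hg
  have hi := h.2.1
  unfold sqn
  rcases lt_or_ge n (σ.length + 1 - i) with h3 | h3
  · have h4 := ((err_clauses (noErr h n h1 (by omega))).1 g hg).1
    rw [smul_smul, (hc.zpow_left n).eq, ← smul_smul]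
    exact h4
  · have h4 := ((err_clauses (noErr h (n - 1) (by omega) (by omega))).1 g hg).2
    rw [smul_smul, smul_smul, mul_assoc, ← (hc.zpow_left (n - 1)).eq, ← mul_assoc,
      ← zpow_one_add, add_sub_cancel] at h4
    rw [smul_smul]
    exact h4

theorem up_iff (e : Elts Γ) (ι : X → ZMod 3) (z : X) :
    Up e ι z ↔ ErrX e ι z ∨ (ι (e.x • z) ≠ 2 ∧ Up e ι (e.x • z)) := by
  have hs : ∀ m : ℤ, sqn e ι (e.x • z) m = sqn e ι z (m + 1) := by
    intro m
    have := sqn_zpow e ι z 1 m
    rwa [zpow_one] at this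
  have hx : ∀ n : ℤ, e.x ^ n • e.x • z = e.x ^ (n + 1) • z := by
    intro n
    rw [smul_smul, zpow_add_one]
  constructor
  · rintro (⟨n, h1, h2⟩ | h)
    · rcases n with _ | n
      · left
        simpa using h1
      · right
        refine ⟨?_, Or.inl ⟨n, ?_, fun m hm1 hm2 => ?_⟩⟩
        · have := h2 1 le_rfl (by omega)
          simpa [sqn] using this
        · rw [hx]
          exact_mod_cast h1
        · rw [hs]
          exact_mod_cast h2 (m + 1) (by omega) (by omega)
    · right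
      refine ⟨?_, Or.inr fun m hm => ?_⟩
      · have := h 1 le_rfl
        simpa [sqn] using this
      · rw [hs]
        exact_mod_cast h (m + 1) (by omega)
  · rintro (h | ⟨h0, (⟨n, h1, h2⟩ | h)⟩)
    · exact Or.inl ⟨0, by simpa using h, fun m h1 h2 => by omega⟩
    · refine Or.inl ⟨n + 1, ?_, fun m hm1 hm2 => ?_⟩
      · rw [hx] at h1
        exact_mod_cast h1
      · rcases Nat.lt_or_ge 1 m with hm | hm
        · have := h2 (m - 1) (by omega) (by omega)
          rw [hs] at this
          rwa [show ((m - 1 : ℕ) : ℤ) + 1 = m by omega] at this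
        · obtain rfl : m = 1 := by omega
          simpa [sqn] using h0
    · refine Or.inr fun m hm1 => ?_
      rcases Nat.lt_or_ge 1 m with hm | hm
      · have := h (m - 1) (by omega)
        rw [hs] at this
        rwa [show ((m - 1 : ℕ) : ℤ) + 1 = m by omega] at this
      · obtain rfl : m = 1 := by omega
        simpa [sqn] using h0

theorem dn_iff (e : Elts Γ) (ι : X → ZMod 3) (z : X) :
    Dn e ι z ↔ ErrX e ι z ∨ (ι z ≠ 2 ∧ Dn e ι (e.x⁻¹ • z)) := by
  have hs : ∀ m : ℤ, sqn e ι (e.x⁻¹ • z) m = sqn e ι z (m - 1) := by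
    intro m
    have := sqn_zpow e ι z (-1) m
    rwa [zpow_neg_one] at this
  have hx : ∀ n : ℤ, e.x ^ n • e.x⁻¹ • z = e.x ^ (n - 1) • z := by
    intro n
    rw [smul_smul, zpow_sub_one]
  constructor
  · rintro (⟨n, h1, h2⟩ | h)
    · rcases n with _ | n
      · left
        simpa using h1
      · right
        refine ⟨?_, Or.inl ⟨n, ?_, fun m hm1 => ?_⟩⟩
        · have := h2 0 (by omega)
          simpa [sqn] using this
        · rw [hx]
          rwa [show -((n + 1 : ℕ) : ℤ) = -(n : ℤ) - 1 by push_cast; ring] at h1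
        · rw [hs]
          have := h2 (m + 1) (by omega)
          rwa [show -((m + 1 : ℕ) : ℤ) = -(m : ℤ) - 1 by push_cast; ring] at this
    · right
      refine ⟨?_, Or.inr fun m => ?_⟩
      · have := h 0
        simpa [sqn] using this
      · rw [hs]
        have := h (m + 1)
        rwa [show -((m + 1 : ℕ) : ℤ) = -(m : ℤ) - 1 by push_cast; ring] at this
  · rintro (h | ⟨h0, (⟨n, h1, h2⟩ | h)⟩)
    · exact Or.inl ⟨0, by simpa using h, fun m h1 => by omega⟩
    · refine Or.inl ⟨n + 1, ?_, fun m hm1 => ?_⟩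
      · rw [hx] at h1
        rwa [show -((n + 1 : ℕ) : ℤ) = -(n : ℤ) - 1 by push_cast; ring]
      · rcases m with _ | m
        · simpa [sqn] using h0
        · have := h2 m (by omega)
          rw [hs] at this
          rwa [show -((m + 1 : ℕ) : ℤ) = -(m : ℤ) - 1 by push_cast; ring]
    · refine Or.inr fun m => ?_
      rcases m with _ | m
      · simpa [sqn] using h0
      · have := h m
        rw [hs] at this
        rwa [show -((m + 1 : ℕ) : ℤ) = -(m : ℤ) - 1 by push_cast; ring]

theorem err_congr (e : Elts Γ) (ι : X → ZMod 3) (f : X → Lab) (hf : ∀ z, (f z).ι = ι z) (z : X) :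
    Err e (pat f z) ↔ ErrX e ι z := by
  simp only [ErrX, Err, pat, hf]

theorem codes {e : Elts Γ} {V : Set (List Bool)} (hG : Good e V) (ι : X → ZMod 3) (ok : X → Prop)
    (hok : ∀ z, ok z ↔ ¬ Up e ι z ∧ ¬ Dn e ι z) : Codes e ι ok (CdS e ι) where
  ex z := by
    rw [hok]
    constructor
    · intro h
      obtain ⟨i, σ, hP⟩ := exists_Pt h.1 h.2
      exact ⟨i, σ, h, hP⟩
    · rintro ⟨i, σ, h⟩
      exact h.1
  uniq z i σ j τ h h' := h.2.uniq h'.2
  le z i σ h := h.2.1
  base z i σ h := by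
    have h0 : sqn e ι z 0 = ι z := by simp [sqn]
    constructor
    · intro hz
      by_contra hi
      exact h.2.ne 0 (by omega) (by have := h.2.1; omega) (h0.trans hz)
    · rintro rfl
      have := h.2.2.1
      simp only [Nat.cast_zero, neg_zero] at this
      rw [← h0, this]
  top z i σ h := by
    have h0 : sqn e ι z 1 = ι (e.x • z) := by simp [sqn]
    constructor
    · intro hz
      by_contra hi
      exact h.2.ne 1 (by omega) (by have := h.2.1; omega) (h0.trans hz)
    · rintro rfl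
      have := h.2.2.2.2
      rwa [show (σ.length : ℤ) + 1 - σ.length = 1 by ring, h0] at this
  bit z i σ h hi := by
    have h0 : sqn e ι z 1 = ι (e.x • z) := by simp [sqn]
    have := h.2.2.2.1 i hi
    rwa [show (i : ℤ) + 1 - i = 1 by ring, h0] at this
  nb z i σ h g hg hok' := by
    rw [hok] at hok'
    exact ⟨hok', h.2.congr fun n h1 h2 => sqn_S1 hG h hg n h1 h2⟩
  chain z i σ h hi hok' := by
    rw [hok] at hok'
    have hg : (e.s σ[i])⁻¹ ∈ e.S1 := by
      cases σ[i] <;> simp [Elts.S1]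
    have hs : ∀ n : ℤ, sqn e ι ((e.x * (e.s σ[i])⁻¹) • z) n = sqn e ι ((e.s σ[i])⁻¹ • z) (n + 1) := by
      intro n
      have := sqn_zpow e ι ((e.s σ[i])⁻¹ • z) 1 n
      rwa [zpow_one, smul_smul] at this
    refine ⟨hok', by omega, ?_, fun k hk => ?_, ?_⟩
    · rw [hs, sqn_S1 hG h hg _ (by push_cast; omega) (by push_cast; omega)]
      rw [show -((i + 1 : ℕ) : ℤ) + 1 = -(i : ℤ) by push_cast; ring]
      exact h.2.2.1
    · rw [hs, sqn_S1 hG h hg _ (by push_cast; omega) (by push_cast; omega)]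
      rw [show (k : ℤ) + 1 - ((i + 1 : ℕ) : ℤ) + 1 = (k : ℤ) + 1 - i by push_cast; ring]
      exact h.2.2.2.1 k hk
    · rw [hs, sqn_S1 hG h hg _ (by push_cast; omega) (by push_cast; omega)]
      rw [show (σ.length : ℤ) + 1 - ((i + 1 : ℕ) : ℤ) + 1 = (σ.length : ℤ) + 1 - i by
        push_cast; ring]
      exact h.2.2.2.2
  child z σ j τ h h' := by
    have hc : Commute e.x e.t⁻¹ := hG.xt.inv_right
    have hs : ∀ n : ℤ, 0 ≤ n → n ≤ σ.length → sqn e ι (e.t⁻¹ • z) n = sqn e ι z n := by
      intro n h1 h2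
      have h4 := (err_clauses (noErr h n (by omega) (by omega))).2.1
      unfold sqn
      rw [smul_smul, (hc.zpow_left n).eq, ← smul_smul]
      exact h4
    have htop : sqn e ι (e.t⁻¹ • z) (σ.length + 1) ≠ 2 := by
      have h4 := (err_clauses (noErr h (σ.length : ℤ) (by omega) (by omega))).2.2
      have h5 := h.2.2.2.2
      intro hc2
      apply h4
      constructor
      · rw [smul_smul, ← zpow_one_add, add_comm]
        simpa [sqn] using h5
      · rw [smul_smul, mul_assoc, ← (hc.zpow_left (σ.length : ℤ)).eq, ← mul_assoc, ← zpow_one_add,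
          add_comm, ← smul_smul]
        exact hc2
    have hj : j = 0 := by
      by_contra hj
      refine h'.2.ne 0 (by omega) (by have := h'.2.1; omega) ?_
      rw [hs 0 le_rfl (by omega)]
      have := h.2.2.1
      simpa using this
    subst hj
    have hlen : σ.length < τ.length := by
      by_contra hlt
      have h6 := h'.2.2.2.2
      simp only [Nat.cast_zero, sub_zero] at h6
      rcases Nat.lt_or_ge τ.length σ.length with h7 | h7
      · rw [hs _ (by omega) (by omega)] at h6
        exact h.2.ne (τ.length + 1) (by omega) (by omega) h6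
      · have h8 : τ.length = σ.length := by omega
        rw [h8] at h6
        exact htop h6
    refine ⟨rfl, ?_, ?_⟩
    · rw [List.prefix_iff_eq_take]
      refine List.ext_getElem (by simp; omega) fun k h1 h2 => ?_
      rw [List.getElem_take]
      apply bitSym_inj
      have h8 := h.2.2.2.1 k h1
      have h9 := h'.2.2.2.1 k (by omega)
      rw [← h8, ← h9]
      simp only [Nat.cast_zero, sub_zero]
      exact (hs _ (by omega) (by omega)).symm
    · rintro rfl
      omega

end UNm

open UNm in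
theorem un : StmtUN := by
  intro Γ _ _ e V hG X _ _ hm ι hι
  classical
  have mι : ∀ (γ : Γ) (a : ZMod 3), Measurable fun z : X => ι (γ • z) = a := by
    intro γ a
    exact measurableSet_setOfPred.1 ((hm γ) (hι a))
  have mne : ∀ γ γ' : Γ, Measurable fun z : X => ι (γ • z) ≠ ι (γ' • z) := by
    intro γ γ'
    have h : (fun z : X => ι (γ • z) ≠ ι (γ' • z)) =
        fun z : X => ∃ a : ZMod 3, ι (γ • z) = a ∧ ¬ ι (γ' • z) = a := by
      funext z
      apply propext
      constructor
      · intro h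
        exact ⟨_, rfl, fun h' => h h'.symm⟩
      · rintro ⟨a, rfl, h⟩ h'
        exact h h'.symm
    rw [h]
    exact Measurable.exists fun a => (mι γ a).and (mι γ' a).not
  have mErr : Measurable fun z : X => ErrX e ι z := by
    unfold ErrX Err pat
    exact (Measurable.exists fun h => measurable_const.and ((mne _ _).or (mne _ _))).or
      ((mne _ _).or ((mι _ _).and (mι _ _)))
  have mUp : Measurable fun z : X => Up e ι z := by
    unfold Up sqn
    exact (Measurable.exists fun n => (mErr.comp (hm _)).and (Measurable.forall fun m =>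
      measurable_const.imp (measurable_const.imp (mι _ _).not))).or
      (Measurable.forall fun m => measurable_const.imp (mι _ _).not)
  have mDn : Measurable fun z : X => Dn e ι z := by
    unfold Dn sqn
    exact (Measurable.exists fun n => (mErr.comp (hm _)).and (Measurable.forall fun m =>
      measurable_const.imp (mι _ _).not)).or (Measurable.forall fun m => (mι _ _).not)
  have hdU : ∀ z, (decide (Up e ι z) = false ∧ decide (Dn e ι z) = false) ↔
      ¬ Up e ι z ∧ ¬ Dn e ι z := by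
    intro z
    simp
  refine ⟨fun z => decide (Up e ι z), fun z => decide (Dn e ι z), CdS e ι, ?_, ?_, ?_,
    codes hG ι _ hdU, ?_⟩
  · refine measurable_to_bool ?_
    rw [show (fun z => decide (Up e ι z)) ⁻¹' {true} = {z | Up e ι z} by ext; simp]
    exact measurableSet_setOfPred.2 mUp
  · refine measurable_to_bool ?_
    rw [show (fun z => decide (Dn e ι z)) ⁻¹' {true} = {z | Dn e ι z} by ext; simp]
    exact measurableSet_setOfPred.2 mDn
  · intro i σ
    unfold CdS Pt sqn
    exact measurableSet_setOfPred.2 ((mUp.not.and mDn.not).and (measurable_const.and ((mι _ _).and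
      ((Measurable.forall fun k => Measurable.forall fun h => mι _ _).and (mι _ _)))))
  · intro f hfι hfU hfN z
    constructor
    · unfold L2
      rw [err_congr e ι f hfι z]
      simp only [pat, one_smul, hfU, hfι, decide_eq_true_eq]
      exact up_iff e ι z
    · unfold L3
      rw [err_congr e ι f hfι z]
      simp only [pat, one_smul, hfN, hfι, decide_eq_true_eq]
      exact dn_iff e ι z

end Pool.Agent.LCL89
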